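import Pool.Agent.W948.OP.Main

/-!
# ODD-PATHS is NP-complete; it is in coNP if and only if NP = coNP

In a bipartite graph an odd path joins vertices of different colours, so `k` disjoint odd paths
between two sets of `k` vertices which both meet the two colour classes behave like two kinds of
disjoint paths. The reduction is from 3SAT: the paths of the first kind choose, for every variable,
one of two parallel lobes, and the paths of the second kind have to cross, for every clause, the
lobe of a literal that is not used.
-/

namespace Pool.Agent.Results.MP_636301_lc.OddPathsNPComplete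

open Pool.Agent.NPC Pool.Agent.NPC.OddP

/-- ODD-PATHS is NP-complete, already for bipartite graphs. It is in coNP if and only if
`NP = coNP`; the same holds for the existence of polynomially verifiable certificates for the
well-formed instances that have no `k` internally disjoint odd `(X,Y)`-paths. -/
theorem result :
    InNPP OddPaths ∧ NPHardP OddPaths ∧
    (∀ L : Set (List Bool), InNP L → ∃ f : List Bool → Inst, PolyTime (fun x => bits (f x)) ∧
      ∀ x, Valid (f x) ∧ Bipartite (f x).1 ∧ (x ∈ L ↔ HasOddPaths (f x))) ∧
    (InCoNPP OddPaths ↔ ∀ L : Set (List Bool), InNP L ↔ InCoNP L) ∧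
    ((∃ A : Set (List Bool), InNP A ∧ ∀ I : Inst, Valid I → (bits I ∈ A ↔ ¬ HasOddPaths I)) ↔
      ∀ L : Set (List Bool), InNP L ↔ InCoNP L) :=
  ⟨inNPP_oddPaths, npHardP_oddPaths, hard_bipartite, inCoNPP_iff, cert_iff⟩

end Pool.Agent.Results.MP_636301_lc.OddPathsNPComplete
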